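import Pool.Agent.Lib.helper21.Good

set_option autoImplicit false

namespace Pool.Agent.Results.MP_f04b5a_an.ArithInf

/-- For every weight `α ∈ (0, 1/2)` some arithmetic mean of two functions of `S` takes a value
infinitely often in the disc. -/
theorem result : ∀ α : ℝ, 0 < α → α < 1 / 2 → ∃ f g : ℂ → ℂ,
    (DifferentiableOn ℂ f (Metric.ball (0 : ℂ) 1) ∧ Set.InjOn f (Metric.ball (0 : ℂ) 1) ∧
      f 0 = 0 ∧ deriv f 0 = 1) ∧
    (DifferentiableOn ℂ g (Metric.ball (0 : ℂ) 1) ∧ Set.InjOn g (Metric.ball (0 : ℂ) 1) ∧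
      g 0 = 0 ∧ deriv g 0 = 1) ∧
    ∃ w : ℂ, {z : ℂ | z ∈ Metric.ball (0 : ℂ) 1 ∧
      (α : ℂ) * f z + (1 - (α : ℂ)) * g z = w}.Infinite :=
  fun _ h0 h1 => Pool.Agent.Lib.Helper21.Good.arith h0 h1

end Pool.Agent.Results.MP_f04b5a_an.ArithInf
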