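import Pool.Agent.Lib.helper21.Good2

set_option autoImplicit false

namespace Pool.Agent.Results.MP_f04b5a_an.GeomInf

/-- For every weight `α ∈ (0, 1/2]` some geometric mean of two functions of `S` takes a value
infinitely often in the disc. -/
theorem result : ∀ α : ℝ, 0 < α → α ≤ 1 / 2 → ∃ f g Lf Lg : ℂ → ℂ,
    (DifferentiableOn ℂ f (Metric.ball (0 : ℂ) 1) ∧ Set.InjOn f (Metric.ball (0 : ℂ) 1) ∧
      f 0 = 0 ∧ deriv f 0 = 1) ∧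
    (DifferentiableOn ℂ g (Metric.ball (0 : ℂ) 1) ∧ Set.InjOn g (Metric.ball (0 : ℂ) 1) ∧
      g 0 = 0 ∧ deriv g 0 = 1) ∧
    (DifferentiableOn ℂ Lf (Metric.ball (0 : ℂ) 1) ∧ Lf 0 = 0 ∧
      ∀ z ∈ Metric.ball (0 : ℂ) 1, f z = z * Complex.exp (Lf z)) ∧
    (DifferentiableOn ℂ Lg (Metric.ball (0 : ℂ) 1) ∧ Lg 0 = 0 ∧
      ∀ z ∈ Metric.ball (0 : ℂ) 1, g z = z * Complex.exp (Lg z)) ∧
    ∃ w : ℂ, {z : ℂ | z ∈ Metric.ball (0 : ℂ) 1 ∧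
      z * Complex.exp ((α : ℂ) * Lf z + (1 - (α : ℂ)) * Lg z) = w}.Infinite :=
  fun _ h0 h1 => Pool.Agent.Lib.Helper21.Good.geom h0 h1

end Pool.Agent.Results.MP_f04b5a_an.GeomInf
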